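import Pool.Agent.Helper5.FRD.Goals
import Pool.Agent.Helper9.FRC.NPR

/-!
# Project FRD (MP_79b960_co), packet RTAIL
-/

set_option autoImplicit false

open Finset

namespace Pool.Agent.Helper12.FRD.RTAIL

open Pool.Agent.Helper5.FRC Pool.Agent.Helper5.FRD

theorem ias {V : Type} (n : Equiv.Perm V) (z : V) : n⁻¹ (n z) = z := by simp

/-- A finite set closed under a permutation is closed under its inverse. -/
theorem inv_inv {V : Type} [Fintype V] [DecidableEq V] (n : Equiv.Perm V) (S : Finset V)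
    (h : Inv n S) : Inv n⁻¹ S := by
  intro x hx
  have h1 : S.image n ⊆ S := by
    intro y hy
    obtain ⟨z, hz, rfl⟩ := mem_image.mp hy
    exact h z hz
  have h2 : S.image n = S :=
    eq_of_subset_of_card_le h1 (by rw [card_image_of_injective _ n.injective])
  rw [← h2] at hx
  obtain ⟨z, hz, rfl⟩ := mem_image.mp hx
  show n⁻¹ (n z) ∈ S
  rw [ias]
  exact hz

theorem cir_inv {V : Type} [Fintype V] [DecidableEq V] (n : Equiv.Perm V) (Z : Finset V)
    (h : Cir n Z) : Cir n⁻¹ Z := by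
  refine ⟨h.1, inv_inv n Z h.2.1, fun D hD hne hI => h.2.2 D hD hne ?_⟩
  have := inv_inv n⁻¹ D hI
  rwa [inv_inv' n] at this
where
  inv_inv' {V : Type} (n : Equiv.Perm V) : n⁻¹⁻¹ = n := by simp

theorem alg_inv {V : Type} [DecidableEq V] (n : Equiv.Perm V) (Z : Finset V) (p : V → V)
    (h : Alg n Z p) : Alg n⁻¹ Z p := by
  refine ⟨h.1, fun z hz => ?_⟩
  rcases h.2 z hz with h1 | h1
  · right
    rw [h1, ias]
  · left
    rw [Equiv.Perm.eq_inv_iff_eq]
    exact h1

/-- The case `p w = n w`. -/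
theorem main (hQ : ArcqStmt) (hM : MarkStmt) (hCh : ChainStmt) (V : Type) [Fintype V]
    [DecidableEq V] (n : Equiv.Perm V)
    (A Z C : Finset V) (t p t' : V → V) (hA : Prg A t) (hZA : Z ⊆ A) (hZ : Cir n Z)
    (hev : Even Z.card) (hp : Alg n Z p) (hR : Red A Z t p t') (hC : C ⊆ A \ Z) (x : V)
    (hx : x ∈ C) (htx : t x ∈ Z) (htx' : t' x ∈ C) (w : V) (hw : w ∈ Z) (htw : t w ∉ Z)
    (htwC : t w ∉ C) (hpw : p w = n w) :
    ∃ (q : V → V) (U : Finset V), U ⊆ A ∧ Half n Z t q U ∧ w ∈ U ∧ ∃ e ∈ C, U \ Z = {t w, e} := by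
  obtain ⟨hpair, harc⟩ := hQ V n Z p hZ hev hp w hw hpw
  obtain ⟨⟨D, hDA, hDcl, hDZ, hDx, hDx'⟩, -, -⟩ := hCh V A Z t p t' hA hZA hp.1 hR x (hC hx)
  obtain ⟨hmem, hsurj, hinj⟩ := Pool.Agent.Helper9.FRC.NPR.enum n Z hZ w hw
  have hpow : ∀ i, (n : V → V)^[i] w = (n ^ i) w := by
    intro i; rw [Equiv.Perm.iterate_eq_pow]
  have hmem' : ∀ i, (n ^ i) w ∈ Z := fun i => by rw [← hpow]; exact hmem i
  have hxD : x ∈ D := by
    have : x ∈ D \ Z := by rw [hDZ]; simp
    exact (mem_sdiff.mp this).1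
  have hx'D : t' x ∈ D := by
    have : t' x ∈ D \ Z := by rw [hDZ]; simp
    exact (mem_sdiff.mp this).1
  have htxD : t x ∈ D := (hDcl x hxD).1
  have hwD : w ∉ D := by
    intro h
    have h1 : t w ∈ D := (hDcl w h).1
    have h2 : t w ∈ D \ Z := mem_sdiff.mpr ⟨h1, htw⟩
    rw [hDZ] at h2
    rcases mem_insert.mp h2 with h3 | h3
    · exact htwC (h3 ▸ hx)
    · rw [mem_singleton] at h3
      exact htwC (h3 ▸ htx')
  -- the even member of a pair in `D`
  have hlow : ∀ j, 2 * j + 1 < Z.card → (n ^ (2 * j + 1)) w ∈ D → (n ^ (2 * j)) w ∈ D := by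
    intro j hj h
    have h1 := (hDcl _ h).2 (hmem' _) (notMem_empty _)
    rwa [(hpair j hj).2] at h1
  have hhigh : ∀ j, 2 * j + 1 < Z.card → (n ^ (2 * j)) w ∈ D → (n ^ (2 * j + 1)) w ∈ D := by
    intro j hj h
    have h1 := (hDcl _ h).2 (hmem' _) (notMem_empty _)
    rwa [(hpair j hj).1] at h1
  obtain ⟨k, hk⟩ := hev
  have hex : ∃ b, 2 * b + 1 < Z.card ∧ (n ^ (2 * b)) w ∈ D := by
    obtain ⟨i, hi, hi2⟩ := hsurj (t x) htx
    rw [hpow] at hi2
    rcases Nat.even_or_odd' i with ⟨j, rfl | rfl⟩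
    · refine ⟨j, by omega, ?_⟩
      rw [hi2]; exact htxD
    · refine ⟨j, hi, hlow j hi ?_⟩
      rw [hi2]; exact htxD
  obtain ⟨hb1, hb2⟩ := Nat.find_spec hex
  have hbmin : ∀ c, c < Nat.find hex → 2 * c + 1 < Z.card → (n ^ (2 * c)) w ∉ D := by
    intro c hc h1 h2
    exact Nat.find_min hex hc ⟨h1, h2⟩
  set b := Nat.find hex with hbdef
  have hb0 : 0 < b := by
    rcases Nat.eq_zero_or_pos b with h | h
    · rw [h] at hb2
      exact absurd (by simpa using hb2) hwD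
    · exact h
  set r := (n ^ (2 * b + 1)) w with hr
  have hrD : r ∈ D := hhigh b hb1 hb2
  have hpr : p r = (n ^ (2 * b)) w := (hpair b hb1).2
  have hXmem : ∀ v, v ∈ Arc n w 0 b ↔ ∃ j ≤ 2 * b + 1, (n ^ j) w = v := by
    intro v
    unfold Arc
    rw [mem_image]
    constructor
    · rintro ⟨j, hj, rfl⟩
      exact ⟨j, (mem_Icc.mp hj).2, rfl⟩
    · rintro ⟨j, hj, rfl⟩
      exact ⟨j, mem_Icc.mpr ⟨by omega, hj⟩, rfl⟩
  have hXZ : Arc n w 0 b ⊆ Z := by
    intro v hv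
    obtain ⟨j, -, rfl⟩ := (hXmem v).mp hv
    exact hmem' j
  have hXp : ∀ v ∈ Arc n w 0 b, p v ∈ Arc n w 0 b := by
    intro v hv
    obtain ⟨j, hj, rfl⟩ := (hXmem v).mp hv
    rcases Nat.even_or_odd' j with ⟨c, rfl | rfl⟩
    · rw [(hpair c (by omega)).1]
      exact (hXmem _).mpr ⟨2 * c + 1, by omega, rfl⟩
    · rw [(hpair c (by omega)).2]
      exact (hXmem _).mpr ⟨2 * c, by omega, rfl⟩
  have hrX : r ∈ Arc n w 0 b := (hXmem r).mpr ⟨2 * b + 1, le_refl _, rfl⟩
  have hwX : w ∈ Arc n w 0 b := (hXmem w).mpr ⟨0, by omega, rfl⟩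
  have hDX : D ∩ Arc n w 0 b = {r, p r} := by
    ext v
    rw [mem_inter, mem_insert, mem_singleton]
    constructor
    · rintro ⟨hvD, hvX⟩
      obtain ⟨j, hj, rfl⟩ := (hXmem v).mp hvX
      rcases Nat.even_or_odd' j with ⟨c, rfl | rfl⟩
      · right
        rw [hpr]
        have : ¬ c < b := fun h => hbmin c h (by omega) hvD
        have : c = b := by omega
        rw [this]
      · left
        have : ¬ c < b := fun h => hbmin c h (by omega) (hlow c (by omega) hvD)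
        have : c = b := by omega
        rw [this]
    · rintro (rfl | rfl)
      · exact ⟨hrD, hrX⟩
      · refine ⟨?_, hXp r hrX⟩
        rw [hpr]; exact hb2
  have hpx : Prg (A \ Z) t' := hR.1
  obtain ⟨U₂, hU₂⟩ := hM V A Z (Arc n w 0 b) t p hA hZA hp.1 hXZ hXp x (hC hx) (t' x) (hC htx')
    (hpx x (hC hx)).2.2 D hDA hxD hx'D hDcl hDx hDx' r hrX hDX
  obtain ⟨e, heC, hU⟩ : ∃ e ∈ C, Tl A Z (Arc n w 0 b) t p r e U₂ := by
    rcases hU₂ with h | h
    · exact ⟨x, hx, h⟩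
    · exact ⟨t' x, htx', h⟩
  obtain ⟨hUA, hUcl, hUX, hUZ⟩ := hU
  have hrU : r ∈ U₂ := by
    have : r ∈ U₂ ∩ Arc n w 0 b := by rw [hUX]; exact mem_singleton_self _
    exact (mem_inter.mp this).1
  obtain ⟨q, hq1, hq2, hq3, hq4⟩ := harc 0 b hb0 hb1
  have hz0 : (n ^ (2 * 0)) w = w := by simp
  rw [hz0] at hq2 hq3
  rw [← hr] at hq2 hq3
  have hwA : w ∈ A := hZA hw
  refine ⟨q, insert w (insert (t w) U₂), ?_, ⟨hq1, ?_, ?_, ?_⟩, mem_insert_self _ _, e, heC, ?_⟩
  · intro v hv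
    rcases mem_insert.mp hv with rfl | hv
    · exact hwA
    rcases mem_insert.mp hv with rfl | hv
    · exact (hA w hwA).1
    · exact hUA hv
  · intro v hv hqv
    obtain ⟨h1, h2⟩ := hq2 v hv hqv
    refine ⟨?_, h2⟩
    rcases h1 with rfl | rfl
    · exact mem_insert_self _ _
    · exact mem_insert_of_mem (mem_insert_of_mem hrU)
  · have hsub : (Z.filter fun v => q v = v) ⊆ {w, r} := by
      intro v hv
      obtain ⟨h1, h2⟩ := mem_filter.mp hv
      rcases (hq2 v h1 h2).1 with rfl | rfl <;> simp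
    exact (card_le_card hsub).trans card_le_two
  · intro v hv
    have hqw : q w = w ∨ q w = r := by
      rcases hq3 with h | h
      · exact Or.inl h.1
      · exact Or.inr h.1
    have hqr : q r = r ∨ q r = w := by
      rcases hq3 with h | h
      · exact Or.inl h.2
      · exact Or.inr h.2
    have hwU : w ∈ insert w (insert (t w) U₂) := mem_insert_self _ _
    have hrU' : r ∈ insert w (insert (t w) U₂) := mem_insert_of_mem (mem_insert_of_mem hrU)
    rcases mem_insert.mp hv with rfl | hv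
    · refine ⟨mem_insert_of_mem (mem_insert_self _ _), fun _ => ?_⟩
      rcases hqw with h | h
      · rw [h]; exact hwU
      · rw [h]; exact hrU'
    rcases mem_insert.mp hv with rfl | hv
    · refine ⟨?_, fun h => absurd h htw⟩
      rw [(hA w hwA).2.1]
      exact hwU
    · refine ⟨mem_insert_of_mem (mem_insert_of_mem (hUcl v hv).1), fun hvZ => ?_⟩
      by_cases hvX : v ∈ Arc n w 0 b
      · have : v ∈ U₂ ∩ Arc n w 0 b := mem_inter.mpr ⟨hv, hvX⟩
        rw [hUX, mem_singleton] at this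
        rw [this]
        rcases hqr with h | h
        · rw [h]; exact hrU'
        · rw [h]; exact hwU
      · rw [hq4 v hvZ hvX]
        exact mem_insert_of_mem (mem_insert_of_mem ((hUcl v hv).2 hvZ hvX))
  · rw [insert_sdiff_of_mem _ hw, insert_sdiff_of_notMem _ htw, hUZ]

theorem t (hQ : ArcqStmt) (hM : MarkStmt) (hCh : ChainStmt) : RtailStmt := by
  intro V _ _ n A Z C t p t' hA hZA hZ hev hp hR hC x hx htx htx' w hw htw htwC
  rcases hp.2 w hw with hpw | hpw
  · exact main hQ hM hCh V n A Z C t p t' hA hZA hZ hev hp hR hC x hx htx htx' w hw htw htwC hpw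
  · have hpw' : p w = n⁻¹ w := by
      rw [Equiv.Perm.eq_inv_iff_eq]; exact hpw
    obtain ⟨q, U, hUA, ⟨h1, h2, h3, h4⟩, hwU, hU⟩ := main hQ hM hCh V n⁻¹ A Z C t p t' hA hZA
      (cir_inv n Z hZ) hev (alg_inv n Z p hp) hR hC x hx htx htx' w hw htw htwC hpw'
    refine ⟨q, U, hUA, ⟨?_, ?_, h3, h4⟩, hwU, hU⟩
    · intro v hv
      obtain ⟨a, b, c⟩ := h1 v hv
      refine ⟨a, b, ?_⟩
      rcases c with c | c | c
      · exact Or.inl c
      · right; right
        rw [Equiv.Perm.eq_inv_iff_eq] at c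
        exact c
      · right; left
        rw [Equiv.Perm.inv_eq_iff_eq] at c
        exact c
    · intro v hv hqv
      refine ⟨(h2 v hv hqv).1, fun h => ?_⟩
      have hnv : n v ∈ Z := hZ.2.1 v hv
      have := (h2 (n v) hnv h).2
      rw [ias] at this
      exact this hqv

end Pool.Agent.Helper12.FRD.RTAIL
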